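import Pool.Agent.H6.TP.Targets

/-!
# The theorem of Matomaki and Radziwill for one rational frequency
-/

set_option autoImplicit false

open Finset Pool.Agent.H6.N4D Pool.Agent.H6.TP

namespace Pool.Agent.H81.TP

/-- a sum over quotients -/
theorem mrw_quot (g : ℕ → ℝ) (q M : ℕ) (hq : 0 < q) :
    ∑ n ∈ range (M * q), g (n / q) = q * ∑ z ∈ range M, g z := by
  induction M with
  | zero => simp
  | succ M ih =>
    rw [Nat.succ_mul, Finset.sum_range_add, ih, Finset.sum_range_succ, mul_add]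
    congr 1
    have h1 : ∀ x ∈ range q, g ((M * q + x) / q) = g M := by
      intro x hx
      rw [mul_comm M q, Nat.mul_add_div hq, Nat.div_eq_of_lt (Finset.mem_range.1 hx), add_zero]
    rw [Finset.sum_congr rfl h1, Finset.sum_const, Finset.card_range, nsmul_eq_mul]

/-- shortening a window -/
theorem mrw_short {lam : ℕ → ℝ} (hl : ∀ n, |lam n| ≤ 1) (H K n : ℕ) (θ : ℝ) (hK : K ≤ H)
    (hK0 : 0 < K) : cor lam H n θ ≤ cor lam K n θ + ((H : ℝ) - K) / H := by
  have hH : (0 : ℝ) < H := by exact_mod_cast hK0.trans_le hK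
  have hK1 : (0 : ℝ) < K := by exact_mod_cast hK0
  have hKH : (K : ℝ) ≤ H := by exact_mod_cast hK
  unfold cor
  have hsplit : ∑ m ∈ Ioc n (n + H), (lam m : ℂ) * ee (-(θ * m)) =
      ∑ m ∈ Ioc n (n + K), (lam m : ℂ) * ee (-(θ * m)) +
        ∑ m ∈ Ioc (n + K) (n + H), (lam m : ℂ) * ee (-(θ * m)) :=
    (Finset.sum_Ioc_consecutive _ (by omega) (by omega)).symm
  have hrest : ‖∑ m ∈ Ioc (n + K) (n + H), (lam m : ℂ) * ee (-(θ * m))‖ ≤ (H : ℝ) - K := by
    refine (norm_sum_le _ _).trans ?_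
    have h1 : ∀ m ∈ Ioc (n + K) (n + H), ‖(lam m : ℂ) * ee (-(θ * m))‖ ≤ 1 := by
      intro m _
      rw [norm_mul, norm_ee, mul_one, Complex.norm_real, Real.norm_eq_abs]
      exact hl m
    refine (Finset.sum_le_sum h1).trans ?_
    rw [Finset.sum_const, Nat.card_Ioc, nsmul_eq_mul, mul_one]
    have e : n + H - (n + K) = H - K := by omega
    rw [e, Nat.cast_sub hK]
  rw [norm_mul, norm_mul, norm_div, norm_div, norm_one, Complex.norm_natCast,
    Complex.norm_natCast, hsplit]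
  have h2 := norm_add_le (∑ m ∈ Ioc n (n + K), (lam m : ℂ) * ee (-(θ * m)))
    (∑ m ∈ Ioc (n + K) (n + H), (lam m : ℂ) * ee (-(θ * m)))
  have h3 : 1 / (H : ℝ) * ‖∑ m ∈ Ioc n (n + K), (lam m : ℂ) * ee (-(θ * m)) +
      ∑ m ∈ Ioc (n + K) (n + H), (lam m : ℂ) * ee (-(θ * m))‖ ≤
      1 / (H : ℝ) * (‖∑ m ∈ Ioc n (n + K), (lam m : ℂ) * ee (-(θ * m))‖ + ((H : ℝ) - K)) :=
    mul_le_mul_of_nonneg_left (h2.trans (by linarith)) (by positivity)
  refine h3.trans ?_
  rw [mul_add]
  refine add_le_add ?_ (le_of_eq (by ring))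
  refine mul_le_mul_of_nonneg_right ?_ (norm_nonneg _)
  exact one_div_le_one_div_of_le hK1 hKH

/-- **one rational frequency** -/
theorem pf_MRW (hMR : Pool.Agent.H24.MR.StatementMR) (hLIO : T_LIO) (hRES : T_RES) :
    T_MRW := by
  intro q a ε hq hε
  have hε' : 0 < (ε / 4) ^ 2 := by positivity
  choose h₀ hh₀ using fun b => hMR q b ((ε / 4) ^ 2) (by omega) hε'
  refine ⟨q * ((range q).sup h₀ + ⌈12 / ε⌉₊ + 1), fun H hH => ?_⟩
  obtain ⟨h, hh⟩ : ∃ h, h = H / q := ⟨_, rfl⟩
  have hhl : (range q).sup h₀ + ⌈12 / ε⌉₊ + 1 ≤ h := by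
    rw [hh, Nat.le_div_iff_mul_le (by omega), mul_comm]
    exact hH
  have hqh : q * h ≤ H := by
    rw [hh]
    exact Nat.mul_div_le H q
  have hHq : H < q * h + q := by
    rw [hh]
    exact Nat.lt_mul_div_succ H (by omega)
  have hex : ∀ b, ∃ N₀, b ∈ range q → ∀ N, N₀ ≤ N →
      ∑ z ∈ range N, (∑ y ∈ range h, Pool.Agent.H24.MR.lam (q * (z + y) + b)) ^ 2 ≤
        (ε / 4) ^ 2 * h ^ 2 * N := by
    intro b
    by_cases hb : b ∈ range q
    · have h1 : h₀ b ≤ h := (Finset.le_sup hb).trans (by omega)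
      obtain ⟨N₀, hN₀⟩ := hh₀ b h h1
      exact ⟨N₀, fun _ => hN₀⟩
    · exact ⟨0, fun h => absurd h hb⟩
  choose N₀ hN₀ using hex
  refine ⟨q * (range q).sup N₀ + ⌈(4 * q + ε * q) / ε⌉₊, fun N hN lam hl => ?_⟩
  obtain ⟨M, hM⟩ : ∃ M, M = N / q + 1 := ⟨_, rfl⟩
  have hq0 : (0 : ℝ) < q := by exact_mod_cast hq
  have hh1 : 1 ≤ h := by omega
  have hh0 : (0 : ℝ) < h := by exact_mod_cast hh1
  have hH0 : (0 : ℝ) < H := by
    have : 0 < q * h := Nat.mul_pos (by omega) (by omega)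
    exact_mod_cast this.trans_le hqh
  have hqhR : (q : ℝ) * h ≤ H := by exact_mod_cast hqh
  have hHqR : (H : ℝ) < q * h + q := by exact_mod_cast hHq
  have hhε : 12 / ε ≤ h := by
    have h1 : (⌈12 / ε⌉₊ : ℝ) ≤ h := by
      have : ⌈12 / ε⌉₊ ≤ h := by omega
      exact_mod_cast this
    exact (Nat.le_ceil _).trans h1
  have hNε : (4 * q + ε * q) / ε ≤ N := by
    have h1 : (⌈(4 * q + ε * q) / ε⌉₊ : ℝ) ≤ N := by
      have : ⌈(4 * (q : ℝ) + ε * q) / ε⌉₊ ≤ N := by omega
      exact_mod_cast this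
    exact (Nat.le_ceil _).trans h1
  have hMN : ∀ b ∈ range q, N₀ b ≤ M := by
    intro b hb
    have h1 : N₀ b ≤ (range q).sup N₀ := Finset.le_sup hb
    have h2 : (range q).sup N₀ ≤ N / q := by
      rw [Nat.le_div_iff_mul_le (by omega), mul_comm]
      omega
    omega
  have hMR1 : (M : ℝ) ≤ N / q + 1 := by
    rw [hM]
    push_cast
    have : ((N / q : ℕ) : ℝ) ≤ (N : ℝ) / q := Nat.cast_div_le
    linarith
  -- the sums over residue classes
  have hA : ∀ b ∈ range q, ∑ n ∈ range N, |∑ y ∈ range h, lam (q * (n / q + y) + b)| ≤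
      q * (h + ε / 4 * h * M) := by
    intro b hb
    have hMq : N ≤ M * q := by
      rw [hM, add_mul, one_mul]
      have := Nat.lt_mul_div_succ N (show 0 < q by omega)
      rw [mul_add, mul_one, mul_comm] at this
      omega
    have h1 : ∑ n ∈ range N, |∑ y ∈ range h, lam (q * (n / q + y) + b)| ≤
        ∑ n ∈ range (M * q), |∑ y ∈ range h, lam (q * (n / q + y) + b)| :=
      Finset.sum_le_sum_of_subset_of_nonneg (Finset.range_mono hMq) fun _ _ _ => abs_nonneg _
    refine h1.trans ?_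
    rw [mrw_quot (fun z => |∑ y ∈ range h, lam (q * (z + y) + b)|) q M (by omega)]
    refine mul_le_mul_of_nonneg_left ?_ hq0.le
    -- comparison with the standard function
    have h2 : ∀ z ∈ range M, |∑ y ∈ range h, lam (q * (z + y) + b)| ≤
        (if z = 0 then (h : ℝ) else 0) +
          |∑ y ∈ range h, Pool.Agent.H24.MR.lam (q * (z + y) + b)| := by
      intro z _
      by_cases hz : z = 0
      · rw [if_pos hz]
        have h3 : |∑ y ∈ range h, lam (q * (z + y) + b)| ≤ h := by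
          refine (Finset.abs_sum_le_sum_abs _ _).trans ?_
          refine (Finset.sum_le_sum fun y _ => lio_abs hl (q * (z + y) + b)).trans ?_
          rw [Finset.sum_const, Finset.card_range, nsmul_eq_mul, mul_one]
        have h4 := abs_nonneg (∑ y ∈ range h, Pool.Agent.H24.MR.lam (q * (z + y) + b))
        linarith
      · rw [if_neg hz, zero_add]
        have h3 : ∑ y ∈ range h, lam (q * (z + y) + b) =
            lam 1 * ∑ y ∈ range h, Pool.Agent.H24.MR.lam (q * (z + y) + b) := by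
          rw [Finset.mul_sum]
          refine Finset.sum_congr rfl fun y _ => ?_
          refine hLIO lam hl _ ?_
          have : 0 < q * (z + y) := Nat.mul_pos (by omega) (by omega)
          omega
        rw [h3, abs_mul, lio_sq hl 1, one_mul]
    refine (Finset.sum_le_sum h2).trans ?_
    rw [Finset.sum_add_distrib]
    have h5 : ∑ z ∈ range M, (if z = 0 then (h : ℝ) else 0) ≤ h := by
      rw [Finset.sum_ite_eq' (range M) 0 fun _ => (h : ℝ)]
      split_ifs
      · exact le_rfl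
      · exact hh0.le
    refine add_le_add h5 ?_
    have h6 := sq_sum_le_card_mul_sum_sq (s := range M)
      (f := fun z => |∑ y ∈ range h, Pool.Agent.H24.MR.lam (q * (z + y) + b)|)
    rw [Finset.card_range] at h6
    have h7 : ∑ z ∈ range M, |∑ y ∈ range h, Pool.Agent.H24.MR.lam (q * (z + y) + b)| ^ 2 ≤
        (ε / 4) ^ 2 * h ^ 2 * M := by
      refine le_trans (le_of_eq ?_) (hN₀ b hb M (hMN b hb))
      exact Finset.sum_congr rfl fun z _ => sq_abs _
    have h8 : (∑ z ∈ range M, |∑ y ∈ range h, Pool.Agent.H24.MR.lam (q * (z + y) + b)|) ^ 2 ≤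
        (ε / 4 * h * M) ^ 2 := by
      refine h6.trans ((mul_le_mul_of_nonneg_left h7 (Nat.cast_nonneg _)).trans (le_of_eq ?_))
      ring
    exact (pow_le_pow_iff_left₀ (Finset.sum_nonneg fun _ _ => abs_nonneg _) (by positivity)
      two_ne_zero).1 h8
  -- one window
  have hone : ∀ n ∈ range N, cor lam H n ((a : ℝ) / q) ≤
      ∑ b ∈ range q, |∑ y ∈ range h, lam (q * (n / q + y) + b)| / (q * h) +
        3 / (h : ℝ) := by
    intro n _
    have h1 := mrw_short (lio_abs hl) H (q * h) n ((a : ℝ) / q) hqh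
      (Nat.mul_pos (by omega) (by omega))
    have h2 := hRES lam q h n a (lio_abs hl) hq hh1
    have h3 : ((H : ℝ) - ((q * h : ℕ) : ℝ)) / H ≤ 1 / h := by
      push_cast
      rw [div_le_div_iff₀ hH0 hh0]
      nlinarith
    have h4 : 2 / (h : ℝ) + 1 / h = 3 / h := by ring
    linarith
  refine (Finset.sum_le_sum hone).trans ?_
  rw [Finset.sum_add_distrib, Finset.sum_comm, Finset.sum_const, Finset.card_range, nsmul_eq_mul]
  have h9 : ∑ b ∈ range q, ∑ n ∈ range N,
      |∑ y ∈ range h, lam (q * (n / q + y) + b)| / (q * h) ≤ q * (1 + ε / 4 * M) := by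
    have h1 : ∀ b ∈ range q, ∑ n ∈ range N,
        |∑ y ∈ range h, lam (q * (n / q + y) + b)| / (q * h) ≤ 1 + ε / 4 * M := by
      intro b hb
      rw [← Finset.sum_div, div_le_iff₀ (by positivity)]
      refine (hA b hb).trans (le_of_eq ?_)
      ring
    refine (Finset.sum_le_sum h1).trans (le_of_eq ?_)
    rw [Finset.sum_const, Finset.card_range, nsmul_eq_mul]
  have h10 : (q : ℝ) * (1 + ε / 4 * M) ≤ q + ε / 4 * (N + q) := by
    have h1 : (q : ℝ) * M ≤ N + q := by
      have := mul_le_mul_of_nonneg_left hMR1 hq0.le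
      rw [mul_add, mul_one, mul_div_cancel₀ _ hq0.ne'] at this
      exact this
    nlinarith
  have h11 : 3 / (h : ℝ) ≤ ε / 4 := by
    rw [div_le_iff₀ hε] at hhε
    rw [div_le_iff₀ hh0]
    linarith
  have h12 : (N : ℝ) * (3 / h) ≤ N * (ε / 4) :=
    mul_le_mul_of_nonneg_left h11 (Nat.cast_nonneg _)
  have h13 : 4 * (q : ℝ) + ε * q ≤ N * ε := by
    rwa [div_le_iff₀ hε] at hNε
  nlinarith

end Pool.Agent.H81.TP
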